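import Pool.Agent.Helper42_MCD.Main

/-!
# Randomized matching with convex delay on uniform metrics: a negative answer

For the delay function `f(t) = exp (t ^ 2 - 1 / t)`, `f(0) = 0`, which is convex, non-decreasing,
continuous, unbounded and satisfies `f(0) = f'(0) = 0`, for every distance `D > 0` and every
`n ≥ 2` no randomized online algorithm on the `n`-point uniform metric has a finite competitive
ratio against the oblivious adversary.  In particular there is no `O(log n)`-competitive one.
-/

open MeasureTheory

namespace Pool.Agent.Results.MP_ce7f0c_lc.NoFiniteRatio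

open Helper42_MCD

universe u

theorem result :
    (∀ t : ℝ, 0 < t → superDelay t = Real.exp (t ^ 2 - 1 / t)) ∧
    IsDelayFunction superDelay ∧
    ∀ D : ℝ, 0 < D → ∀ n : ℕ, 2 ≤ n →
      ∀ (Ω : Type u) [MeasurableSpace Ω] (μ : Measure Ω) [IsProbabilityMeasure μ]
        (A : RandomizedAlg n superDelay D Ω) (c : ℝ), ¬ A.Competitive μ c := by
  refine ⟨fun t ht => sd_pos ht, isDelayFunction_superDelay, ?_⟩
  intro D hD n hn Ω _ μ _ A c
  exact not_competitive isDelayFunction_superDelay (fun K => sd_small K D hD)
    (fun K u hu => sd_large K u hu) hD hn μ A c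

end Pool.Agent.Results.MP_ce7f0c_lc.NoFiniteRatio
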